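import Pool.Agent.H.MP_07d118_lc.Main

/-!
In every model of ZF, CPQM implies CPM.  By the completeness theorem this says that ZF proves
CPQM → CPM.  The definitions used in the statement are in `Pool/Agent/H/MP_07d118_lc/Base.lean`.
-/

namespace Pool.Agent.Results.MP_07d118_lc.CPQMimpliesCPM

open Pool.Agent.H.MP_07d118_lc

universe u

/-- Let `M` be a structure for the language of set theory which satisfies the axioms of ZF.  If in
`M` every countable product of quasi-metrizable spaces is quasi-metrizable, then in `M` every
countable product of metrizable spaces is metrizable. -/
theorem result (M : Type u) [SetStr M] (hZF : ZF M) (h : CPQM M) : CPM M :=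
  main h

end Pool.Agent.Results.MP_07d118_lc.CPQMimpliesCPM
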